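import Pool.Agent.W820.KH.Good
import Pool.Agent.W501.KH.Cross
import Pool.Agent.W501.KH.Coef
import Pool.Agent.W22.KH.Bump
import Pool.Agent.W22.KH.Seg
import Pool.Agent.W22.KH.Lin

open Set Filter Topology
open scoped ContDiff

namespace Pool.Agent.W820.KH

section
variable {φ : ℝ → E → E} {g : E → ℝ}

/-- uniform bound for `B` on orbit segments starting in a compact subset of the good set -/
lemma unif_M {K : Set E} (hK : IsCompact K) (hKV : K ⊆ Vgood φ) : ∃ M : ℝ, ∀ y ∈ K, ∀ σ : ℝ,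
    ∀ τ ∈ uIcc 0 σ, B (φ τ y) ≤ max M (B (φ σ y)) := by
  refine hK.induction_on (p := fun s => ∃ M : ℝ, ∀ y ∈ s, ∀ σ : ℝ,
    ∀ τ ∈ uIcc 0 σ, B (φ τ y) ≤ max M (B (φ σ y))) ?_ ?_ ?_ ?_
  · exact ⟨0, fun y hy => absurd hy (by simp)⟩
  · rintro s t hst ⟨M, hM⟩
    exact ⟨M, fun y hy => hM y (hst hy)⟩
  · rintro s t ⟨M1, h1⟩ ⟨M2, h2⟩
    refine ⟨max M1 M2, fun y hy σ τ hτ => ?_⟩
    rcases hy with hy | hy
    · exact (h1 y hy σ τ hτ).trans (max_le_max (le_max_left _ _) le_rfl)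
    · exact (h2 y hy σ τ hτ).trans (max_le_max (le_max_right _ _) le_rfl)
  · intro x hx
    obtain ⟨-, M, hM⟩ := hKV hx
    exact ⟨_, mem_nhdsWithin_of_mem_nhds hM, M, fun y hy => hy⟩

lemma continuousOn_HL : ContinuousOn (fun v => (H v, L v)) P :=
  contDiffOn_H.continuousOn.prodMk contDiff_L.continuous.continuousOn

/-- orbits from a neighbourhood of `x ∈ W` hit a compact subset of the good set only in bounded
time -/
lemma bounded_hit (h : IsKHFlow φ g) {K : Set E} (hK : IsCompact K) (hKV : K ⊆ Vgood φ) :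
    ∀ x ∈ W, ∃ N ∈ 𝓝 x, ∃ T : ℝ, ∀ y ∈ N, ∀ a, φ a y ∈ K → |a| ≤ T := by
  intro x hx
  obtain ⟨N, hN, hxN, hNW⟩ := exists_compact_subset isOpen_W hx
  obtain ⟨M1, hM1⟩ := unif_M hK hKV
  have hKW' : K ⊆ W' := fun v hv => (hKV hv).1
  have hKP : K ⊆ P := fun v hv => (hKW' hv).1
  have hNP : N ⊆ P := fun v hv => (hNW hv).1
  set C : Set (ℝ × ℝ) := (fun v => (H v, L v)) '' K with hC
  have hCc : IsCompact C := hK.image_of_continuousOn (continuousOn_HL.mono hKP)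
  set N' : Set E := N ∩ (fun v => (H v, L v)) ⁻¹' C with hN'
  have hN'c : IsCompact N' :=
    hN.of_isClosed_subset ((continuousOn_HL.mono hNP).preimage_isClosed_of_isClosed hN.isClosed
      hCc.isClosed) inter_subset_left
  have hN'W : N' ⊆ W' := by
    rintro v ⟨hv, ⟨v', hv', he⟩⟩
    have h1 := congrArg Prod.fst he
    have h2 := congrArg Prod.snd he
    simp only at h1 h2
    exact ⟨hNP hv, by rw [← h1]; exact (hKW' hv').2.1, by rw [← h2]; exact (hKW' hv').2.2⟩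
  obtain ⟨M2, hM2⟩ := hN.exists_bound_of_continuousOn contDiff_B.continuous.continuousOn
  obtain ⟨T, hT⟩ := Pool.Agent.W22.KH.t_SEG φ g h (K ∪ N') (hK.union hN'c)
    (union_subset hKW' hN'W) (max M1 M2)
  refine ⟨N, mem_of_superset (isOpen_interior.mem_nhds hxN) interior_subset, T, ?_⟩
  intro y hy a ha
  have hyP := hNP hy
  have hyN' : y ∈ N' := by
    refine ⟨hy, φ a y, ha, ?_⟩
    simp only [h.Hc y hyP, h.Lc y hyP]
  have hback : φ (-a) (φ a y) = y := by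
    rw [← h.add, neg_add_cancel, h.zero]
  have h1 := hT (φ a y) (Or.inl ha) (-a) (by rw [hback]; exact Or.inr hyN') (fun τ hτ => by
    have h2 := hM1 (φ a y) ha (-a) τ hτ
    rw [hback] at h2
    refine h2.trans (max_le_max le_rfl ?_)
    exact (le_abs_self _).trans (by simpa using hM2 y hy))
  rwa [abs_neg] at h1

lemma u_ne_of_L {v : E} (h : L v ≠ 0) : u v ≠ 0 := by
  intro h0
  apply h
  unfold u at h0
  have h5 : v.1 0 ^ 2 = 0 := by nlinarith [sq_nonneg (v.1 0), sq_nonneg (v.1 1)]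
  have h6 : v.1 1 ^ 2 = 0 := by nlinarith [sq_nonneg (v.1 0), sq_nonneg (v.1 1)]
  have h7 : v.1 0 = 0 := by simpa using h5
  have h8 : v.1 1 = 0 := by simpa using h6
  unfold L; rw [h7, h8]; ring

lemma fderiv_coord1 (i : Fin 3) (y w : E) : fderiv ℝ (fun v : E => v.1 i) y w = w.1 i := by
  have h : (fun v : E => v.1 i) =
      (ContinuousLinearMap.proj (R := ℝ) (φ := fun _ : Fin 3 => ℝ) i).comp
        (ContinuousLinearMap.fst ℝ (Fin 3 → ℝ) (Fin 3 → ℝ)) := rfl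
  rw [h, ContinuousLinearMap.fderiv]
  rfl

lemma fderiv_coord2 (i : Fin 3) (y w : E) : fderiv ℝ (fun v : E => v.2 i) y w = w.2 i := by
  have h : (fun v : E => v.2 i) =
      (ContinuousLinearMap.proj (R := ℝ) (φ := fun _ : Fin 3 => ℝ) i).comp
        (ContinuousLinearMap.snd ℝ (Fin 3 → ℝ) (Fin 3 → ℝ)) := rfl
  rw [h, ContinuousLinearMap.fderiv]
  rfl

/-- rotation invariant compactly supported `β` and a direction `w` -/
lemma exists_beta (h : IsKHFlow φ g) {y : E} (hy : y ∈ Vgood φ) : ∃ (β : E → ℝ) (w : E),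
    ContDiff ℝ ∞ β ∧ HasCompactSupport β ∧ tsupport β ⊆ Vgood φ ∧
    (∀ c d : ℝ, c ^ 2 + d ^ 2 = 1 → ∀ v, β (rot c d v) = β v) ∧
    fderiv ℝ H y w = 0 ∧ fderiv ℝ L y w = 0 ∧ fderiv ℝ J y w = 0 ∧ fderiv ℝ β y w ≠ 0 := by
  obtain ⟨hVo, hVr, -⟩ := t_GOOD φ g h
  have hu : u y ≠ 0 := u_ne_of_L hy.1.2.2
  obtain ⟨χ, hχ1, hχ2, hχ3, hχ4, hχ5⟩ := Pool.Agent.W22.KH.t_BUMP (Vgood φ) y hVo hy hu hVr
  obtain ⟨w, hw1, hw2, hw3, hw4⟩ := Pool.Agent.W22.KH.t_LIN y hy.1.1 hu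
  have hinv : ∃ i : E → ℝ, ContDiff ℝ ∞ i ∧
      (∀ c d : ℝ, c ^ 2 + d ^ 2 = 1 → ∀ v, i (rot c d v) = i v) ∧ fderiv ℝ i y w ≠ 0 := by
    rcases hw4 with h1 | h1 | h1
    · exact ⟨u, contDiff_u, fun c d hcd v => u_rot hcd v, h1⟩
    · exact ⟨fun v => v.1 2, by fun_prop, fun c d _ v => by simp [rot],
        by rw [fderiv_coord1]; exact h1⟩
    · exact ⟨fun v => v.2 2, by fun_prop, fun c d _ v => by simp [rot],
        by rw [fderiv_coord2]; exact h1⟩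
  obtain ⟨i, hi1, hi2, hi3⟩ := hinv
  refine ⟨fun v => χ v * i v, w, hχ1.mul hi1, hχ2.mul_right, ?_, ?_, hw1, hw2, hw3, ?_⟩
  · exact (tsupport_mul_subset_left).trans hχ3
  · intro c d hcd v
    simp only
    rw [hχ4 c d hcd, hi2 c d hcd]
  · have : (fun v => χ v * i v) =ᶠ[𝓝 y] i := by
      filter_upwards [hχ5] with v hv
      rw [hv, one_mul]
    rw [this.fderiv_eq]; exact hi3

/-- the smooth first integrals -/
lemma exists_f (h : IsKHFlow φ g) {y : E} (hy : y ∈ Vgood φ) : ∃ (f : E → ℝ) (w : E),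
    ContDiffOn ℝ ∞ f W ∧ (∀ x ∈ W, ∀ a, f (φ a x) = f x) ∧
    (∀ c d : ℝ, c ^ 2 + d ^ 2 = 1 → ∀ x ∈ W, f (rot c d x) = f x) ∧
    fderiv ℝ H y w = 0 ∧ fderiv ℝ L y w = 0 ∧ fderiv ℝ f y w ≠ 0 := by
  obtain ⟨β, w, hβ1, hβ2, hβ3, hβ4, hw1, hw2, hw3, hw4⟩ := exists_beta h hy
  have hWφ : ∀ x ∈ W, ∀ a, φ a x ∈ W := fun x hx a =>
    ⟨h.mapsP x hx.1 a, by rw [h.Hc x hx.1]; exact hx.2⟩
  obtain ⟨f, hf1, hf2, hf3, hf4⟩ := Pool.Agent.W501.KHCross.main φ W J β (J y) h.smooth h.zero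
    h.add isOpen_W hWφ contDiff_J (fun x hx a => by
      rw [(h.dJ x hx.1 a).deriv]
      exact mul_ne_zero (mul_ne_zero two_ne_zero hx.2) (h.gpos _ (h.mapsP x hx.1 a)).ne')
    hβ1 hβ2 (bounded_hit h hβ2 hβ3)
  refine ⟨f, w, hf1, ?_, ?_, hw1, hw2, ?_⟩
  · intro x hx b
    by_cases hc : ∃ a, J (φ a x) = J y
    · obtain ⟨a, ha⟩ := hc
      have e : φ (a - b) (φ b x) = φ a x := by rw [← h.add, sub_add_cancel]
      rw [hf2 x hx a ha, hf2 (φ b x) (hWφ x hx b) (a - b) (by rw [e]; exact ha), e]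
    · push Not at hc
      rw [hf3 x hx hc, hf3 (φ b x) (hWφ x hx b) (fun a => by rw [← h.add]; exact hc _)]
  · intro c d hcd x hx
    have hr : rot c d x ∈ W := ⟨(mem_P_rot hcd).2 hx.1, by rw [H_rot hcd]; exact hx.2⟩
    by_cases hc : ∃ a, J (φ a x) = J y
    · obtain ⟨a, ha⟩ := hc
      rw [hf2 x hx a ha, hf2 _ hr a (by rw [h.rot_comm c d hcd, J_rot hcd]; exact ha),
        h.rot_comm c d hcd, hβ4 c d hcd]
    · push Not at hc
      rw [hf3 x hx hc, hf3 _ hr (fun a => by rw [h.rot_comm c d hcd, J_rot hcd]; exact hc a)]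
  · rw [hf4 y ⟨hy.1.1, hy.1.2.1⟩ rfl w hw3]; exact hw4

end

/-- The third integral. -/
theorem exists_F3 : ∃ (φ : ℝ → E → E) (g : E → ℝ), IsKHFlow φ g ∧ ∃ (F : E → ℝ) (y w : ℕ → E),
    ContDiffOn ℝ ∞ F W ∧ (∀ x ∈ W, ∀ a, F (φ a x) = F x) ∧
    (∀ c d : ℝ, c ^ 2 + d ^ 2 = 1 → ∀ x ∈ W, F (rot c d x) = F x) ∧
    (∀ m, y m ∈ Vgood φ) ∧ (∀ m, fderiv ℝ H (y m) (w m) = 0) ∧
    (∀ m, fderiv ℝ L (y m) (w m) = 0) ∧ (∀ m, fderiv ℝ F (y m) (w m) ≠ 0) ∧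
    W ⊆ closure (range y) := by
  obtain ⟨φ, g, h⟩ := exists_flow
  refine ⟨φ, g, h, ?_⟩
  obtain ⟨hVo, hVr, hVd⟩ := t_GOOD φ g h
  have hWφ : ∀ x ∈ W, ∀ a, φ a x ∈ W := fun x hx a =>
    ⟨h.mapsP x hx.1 a, by rw [h.Hc x hx.1]; exact hx.2⟩
  -- nonempty
  have hWne : (univ ∩ W : Set E).Nonempty := by
    refine ⟨(![1, 0, 0], ![0, 0, 0]), trivial, ?_, ?_⟩
    · rw [mem_P_iff]; simp [S, u]
    · have : (0 : ℝ) < k := k_pos
      simp only [H, PX, PY, s, S, u, Matrix.cons_val_zero, Matrix.cons_val_one, Matrix.cons_val]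
      norm_num
      exact this.ne'
  have hVne : (Vgood φ).Nonempty := by
    obtain ⟨v, -, hv⟩ := hVd univ isOpen_univ hWne; exact ⟨v, hv⟩
  haveI : Nonempty (Vgood φ) := hVne.to_subtype
  set d := TopologicalSpace.denseSeq (Vgood φ) with hd
  have hdd : DenseRange d := TopologicalSpace.denseRange_denseSeq _
  set y : ℕ → E := fun m => (d m : E) with hy
  have hyV : ∀ m, y m ∈ Vgood φ := fun m => (d m).2
  have hclos : W ⊆ closure (range y) := by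
    intro v hv
    rw [mem_closure_iff]
    intro U hU hvU
    obtain ⟨v', hv'U, hv'V⟩ := hVd U hU ⟨v, hvU, hv⟩
    have := hdd.exists_mem_open (hU.preimage continuous_subtype_val) ⟨⟨v', hv'V⟩, hv'U⟩
    obtain ⟨m, hm⟩ := this
    exact ⟨y m, hm, m, rfl⟩
  choose f w hf1 hf2 hf3 hw1 hw2 hw3 using fun m => exists_f h (hyV m)
  -- cutoffs
  set χ : ℕ → E → ℝ := fun m => cut W ρW m with hχ
  have hχs : ∀ j, ContDiff ℝ ∞ (χ j) := fun j => contDiff_cut isOpen_W contDiffOn_ρW compact_ρW j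
  have hχc : ∀ j, HasCompactSupport (χ j) := fun j => hasCompactSupport_cut compact_ρW j
  have hχt : ∀ j, tsupport (χ j) ⊆ W := fun j => (tsupport_cut compact_ρW j).trans fun v hv => hv.1
  have hloc : ∀ x ∈ W, ∃ m : ℕ, ∀ᶠ x' in 𝓝 x, χ m x' = 1 := by
    intro x hx
    obtain ⟨m, hm⟩ := exists_nat_gt (ρW x + 1)
    refine ⟨m, ?_⟩
    have h1 : ∀ᶠ x' in 𝓝 x, ρW x' < m - 1 :=
      ((contDiffOn_ρW.continuousOn.continuousAt (isOpen_W.mem_nhds hx)).tendsto).eventually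
        (gt_mem_nhds (by linarith))
    filter_upwards [h1, isOpen_W.mem_nhds hx] with x' h2 h3
    exact cut_of_le h3 h2.le
  set G : ℕ → ℕ → E → ℝ := fun m j x => χ m x • f j x with hG
  have hG1 : ∀ m j, ContDiff ℝ ∞ (G m j) := fun m j =>
    contDiff_smul_of_tsupport isOpen_W (hχs m) (hχt m) (hf1 j)
  have hG2 : ∀ m j, HasCompactSupport (G m j) := fun m j => (hχc m).smul_right
  obtain ⟨ε, hε, -, hsum⟩ := Pool.Agent.W22.KH.t_EPS ℝ G hG1 hG2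
  have hfd : ∀ x ∈ W, ∀ m : ℕ, (∀ᶠ x' in 𝓝 x, χ m x' = 1) → ∀ j,
      fderiv ℝ (G m j) x = fderiv ℝ (f j) x := by
    intro x _ m hm j
    apply Filter.EventuallyEq.fderiv_eq
    filter_upwards [hm] with x' hx'
    simp only [hG]; rw [hx', one_smul]
  -- coefficients
  have hsumm : ∀ m, Summable fun j => |ε j * fderiv ℝ (f j) (y m) (w m)| := by
    intro m
    have hyW : y m ∈ W := ⟨(hyV m).1.1, (hyV m).1.2.1⟩
    obtain ⟨n, hn⟩ := hloc (y m) hyW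
    have h1 := ((hsum n (fun _ => 1) (fun _ => by simp)).2.2 (y m)).1
    refine Summable.of_nonneg_of_le (fun j => abs_nonneg _) (fun j => ?_)
      (h1.mul_right ‖w m‖)
    rw [hfd (y m) hyW n hn j, one_mul]
    have h2 := ((ε j) • fderiv ℝ (f j) (y m)).le_opNorm (w m)
    simpa using h2
  obtain ⟨c, hc1, hc2⟩ := Pool.Agent.W501.KHCoef.main
    (fun m j => ε j * fderiv ℝ (f j) (y m) (w m)) hsumm
    (fun m => ⟨m, mul_ne_zero (hε m).ne' (hw3 m)⟩)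
  set F : E → ℝ := fun x => ∑' j, (c j * ε j) • f j x with hF
  have hFev : ∀ m : ℕ, ∀ x, (∀ᶠ x' in 𝓝 x, χ m x' = 1) →
      F =ᶠ[𝓝 x] fun x => ∑' j, (c j * ε j) • G m j x := by
    intro m x hm
    filter_upwards [hm] with x' hx'
    simp only [hF, hG, hx', one_smul]
  refine ⟨F, y, w, ?_, ?_, ?_, hyV, hw1, hw2, ?_, hclos⟩
  · intro x hx
    obtain ⟨m, hm⟩ := hloc x hx
    exact (((hsum m c hc1).2.1.contDiffAt).congr_of_eventuallyEq (hFev m x hm)).contDiffWithinAt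
  · intro x hx a
    exact tsum_congr fun j => by rw [hf2 j x hx a]
  · intro c' d' hcd x hx
    exact tsum_congr fun j => by rw [hf3 j c' d' hcd x hx]
  · intro m
    have hyW : y m ∈ W := ⟨(hyV m).1.1, (hyV m).1.2.1⟩
    obtain ⟨n, hn⟩ := hloc (y m) hyW
    rw [(hFev n (y m) hn).fderiv_eq]
    obtain ⟨h1, h2⟩ := (hsum n c hc1).2.2 (y m)
    rw [h2]
    have h3 : (∑' j, (c j * ε j) • fderiv ℝ (G n j) (y m)) (w m)
        = ∑' j, ((c j * ε j) • fderiv ℝ (G n j) (y m)) (w m) :=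
      (ContinuousLinearMap.apply ℝ ℝ (w m)).map_tsum h1.of_norm
    rw [h3]
    convert hc2 m using 3 with j
    rw [hfd (y m) hyW n hn j]
    simp [mul_assoc]

end Pool.Agent.W820.KH
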