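import Pool.Agent.W820.KH.Defs

open Set Filter Topology
open scoped ContDiff

namespace Pool.Agent.W820.KH

lemma u_nonneg (v : E) : 0 ≤ u v := by unfold u; positivity

lemma S_nonneg (v : E) : 0 ≤ S v := by unfold S; positivity

lemma k_pos : 0 < k := by unfold k; positivity

lemma mem_P_iff {v : E} : v ∈ P ↔ 0 < S v := by
  constructor
  · intro h
    rcases (S_nonneg v).lt_or_eq with h0 | h0
    · exact h0
    · exfalso
      apply h
      have h1 : u v ^ 2 = 0 := by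
        have := sq_nonneg (u v); have := sq_nonneg (v.1 2); unfold S at h0; nlinarith
      have h2 : v.1 2 ^ 2 = 0 := by
        have := sq_nonneg (u v); have := sq_nonneg (v.1 2); unfold S at h0; nlinarith
      have h3 : u v = 0 := by simpa using h1
      have h4 : v.1 2 = 0 := by simpa using h2
      unfold u at h3
      have h5 : v.1 0 ^ 2 = 0 := by nlinarith [sq_nonneg (v.1 0), sq_nonneg (v.1 1)]
      have h6 : v.1 1 ^ 2 = 0 := by nlinarith [sq_nonneg (v.1 0), sq_nonneg (v.1 1)]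
      have h7 : v.1 0 = 0 := by simpa using h5
      have h8 : v.1 1 = 0 := by simpa using h6
      funext i
      fin_cases i <;> simp [h4, h7, h8]
  · intro h h0
    simp [S, u, h0] at h

lemma isOpen_P : IsOpen P := by
  have : P = (fun v : E => v.1) ⁻¹' {0}ᶜ := rfl
  rw [this]
  exact isOpen_compl_singleton.preimage continuous_fst

lemma s_pos {v : E} (h : v ∈ P) : 0 < s v := Real.sqrt_pos.2 (mem_P_iff.1 h)

lemma s_nonneg (v : E) : 0 ≤ s v := Real.sqrt_nonneg _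

lemma s_sq (v : E) : s v ^ 2 = S v := Real.sq_sqrt (S_nonneg v)

lemma u_le_s (v : E) : u v ≤ s v := by
  apply Real.le_sqrt_of_sq_le
  unfold S; nlinarith [sq_nonneg (v.1 2)]

lemma z_le_s (v : E) : 4 * |v.1 2| ≤ s v := by
  apply Real.le_sqrt_of_sq_le
  rw [mul_pow, sq_abs]
  unfold S; nlinarith [sq_nonneg (u v)]

lemma contDiff_u : ContDiff ℝ ∞ u := by unfold u; fun_prop
lemma contDiff_S : ContDiff ℝ ∞ S := by unfold S u; fun_prop
lemma contDiff_L : ContDiff ℝ ∞ L := by unfold L; fun_prop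
lemma contDiff_J : ContDiff ℝ ∞ J := by unfold J; fun_prop
lemma contDiff_B : ContDiff ℝ ∞ B := by unfold B u; fun_prop
lemma contDiff_PX : ContDiff ℝ ∞ PX := by unfold PX; fun_prop
lemma contDiff_PY : ContDiff ℝ ∞ PY := by unfold PY; fun_prop

lemma contDiffOn_s : ContDiffOn ℝ ∞ s P := by
  intro v hv
  have h : S v ≠ 0 := (mem_P_iff.1 hv).ne'
  exact ((contDiff_S.contDiffAt).sqrt h).contDiffWithinAt

lemma contDiffOn_H : ContDiffOn ℝ ∞ H P := by
  unfold H
  have h1 : ContDiffOn ℝ ∞ (fun v : E => (PX v ^ 2 + PY v ^ 2) / 2) P :=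
    (((contDiff_PX.pow 2).add (contDiff_PY.pow 2)).div_const 2).contDiffOn
  exact h1.sub (contDiffOn_const.div contDiffOn_s fun v hv => (s_pos hv).ne')

lemma contDiffOn_XH : ContDiffOn ℝ ∞ XH P := by
  have hs3 : ContDiffOn ℝ ∞ (fun v : E => s v ^ 3) P := contDiffOn_s.pow 3
  have hs3' : ∀ v ∈ P, s v ^ 3 ≠ 0 := fun v hv => (pow_pos (s_pos hv) 3).ne'
  unfold XH
  apply ContDiffOn.prodMk
  · apply ContDiff.contDiffOn
    rw [contDiff_pi]
    intro i
    fin_cases i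
    · simpa using contDiff_PX
    · simpa using contDiff_PY
    · simp only [Fin.reduceFinMk, Matrix.cons_val]
      unfold PX PY; fun_prop
  · rw [contDiffOn_pi]
    intro i
    fin_cases i
    · simp only [Fin.zero_eta, Matrix.cons_val_zero]
      refine ContDiffOn.sub (ContDiff.contDiffOn ?_) (ContDiffOn.div (ContDiff.contDiffOn ?_) hs3 hs3')
      · unfold PY; fun_prop
      · unfold u; fun_prop
    · simp only [Fin.mk_one, Matrix.cons_val_one]
      refine ContDiffOn.sub (ContDiff.contDiffOn ?_) (ContDiffOn.div (ContDiff.contDiffOn ?_) hs3 hs3')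
      · unfold PX; fun_prop
      · unfold u; fun_prop
    · simp only [Fin.reduceFinMk, Matrix.cons_val]
      refine ContDiffOn.neg (ContDiffOn.div (ContDiff.contDiffOn ?_) hs3 hs3')
      fun_prop

/-! ### derivatives along curves -/

section curve
variable {γ : ℝ → E} {γ' : E} {t : ℝ}

lemma hda1 (h : HasDerivAt γ γ' t) (i : Fin 3) : HasDerivAt (fun t => (γ t).1 i) (γ'.1 i) t := by
  have h1 : HasDerivAt (fun t => (γ t).1) γ'.1 t :=
    (ContinuousLinearMap.fst ℝ (Fin 3 → ℝ) (Fin 3 → ℝ)).hasFDerivAt.comp_hasDerivAt t h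
  exact (hasDerivAt_pi.1 h1) i

lemma hda2 (h : HasDerivAt γ γ' t) (i : Fin 3) : HasDerivAt (fun t => (γ t).2 i) (γ'.2 i) t := by
  have h1 : HasDerivAt (fun t => (γ t).2) γ'.2 t :=
    (ContinuousLinearMap.snd ℝ (Fin 3 → ℝ) (Fin 3 → ℝ)).hasFDerivAt.comp_hasDerivAt t h
  exact (hasDerivAt_pi.1 h1) i

lemma hda_u (h : HasDerivAt γ γ' t) : HasDerivAt (fun t => u (γ t))
    (2 * (γ t).1 0 * γ'.1 0 + 2 * (γ t).1 1 * γ'.1 1) t := by
  unfold u
  exact (((hda1 h 0).pow 2).add ((hda1 h 1).pow 2)).congr_deriv (by push_cast; ring)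

lemma hda_S (h : HasDerivAt γ γ' t) : HasDerivAt (fun t => S (γ t))
    (2 * u (γ t) * (2 * (γ t).1 0 * γ'.1 0 + 2 * (γ t).1 1 * γ'.1 1) +
      32 * (γ t).1 2 * γ'.1 2) t := by
  unfold S
  exact (((hda_u h).pow 2).add (((hda1 h 2).pow 2).const_mul 16)).congr_deriv (by push_cast; ring)

lemma hda_s (h : HasDerivAt γ γ' t) (hP : γ t ∈ P) : HasDerivAt (fun t => s (γ t))
    ((2 * u (γ t) * (2 * (γ t).1 0 * γ'.1 0 + 2 * (γ t).1 1 * γ'.1 1) +
      32 * (γ t).1 2 * γ'.1 2) / (2 * s (γ t))) t := by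
  unfold s
  exact (hda_S h).sqrt (mem_P_iff.1 hP).ne'

lemma hda_L (h : HasDerivAt γ γ' t) : HasDerivAt (fun t => L (γ t))
    (γ'.1 0 * (γ t).2 1 + (γ t).1 0 * γ'.2 1 - (γ'.1 1 * (γ t).2 0 + (γ t).1 1 * γ'.2 0)) t := by
  unfold L
  exact ((hda1 h 0).mul (hda2 h 1)).sub ((hda1 h 1).mul (hda2 h 0))

lemma hda_J (h : HasDerivAt γ γ' t) : HasDerivAt (fun t => J (γ t))
    (γ'.1 0 * (γ t).2 0 + (γ t).1 0 * γ'.2 0 + (γ'.1 1 * (γ t).2 1 + (γ t).1 1 * γ'.2 1)
      + 2 * (γ'.1 2 * (γ t).2 2 + (γ t).1 2 * γ'.2 2)) t := by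
  unfold J
  exact (((hda1 h 0).mul (hda2 h 0)).add ((hda1 h 1).mul (hda2 h 1))).add
    (((hda1 h 2).mul (hda2 h 2)).const_mul 2)

lemma hda_B (h : HasDerivAt γ γ' t) : HasDerivAt (fun t => B (γ t))
    ((γ t).2 0 * γ'.2 0 + (γ t).2 1 * γ'.2 1 +
      ((2 * (γ t).1 0 * γ'.1 0 + 2 * (γ t).1 1 * γ'.1 1) * (γ t).2 2 ^ 2
       + u (γ t) * (2 * (γ t).2 2 * γ'.2 2)) / 8) t := by
  unfold B
  exact (((((hda2 h 0).pow 2).add ((hda2 h 1).pow 2)).div_const 2).add
    (((hda_u h).mul ((hda2 h 2).pow 2)).div_const 8)).congr_deriv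
    (by simp only [Pi.pow_apply]; push_cast; ring)

lemma hda_PX (h : HasDerivAt γ γ' t) : HasDerivAt (fun t => PX (γ t))
    (γ'.2 0 - (γ'.1 1 * (γ t).2 2 + (γ t).1 1 * γ'.2 2) / 2) t := by
  unfold PX
  exact (hda2 h 0).sub (((hda1 h 1).mul (hda2 h 2)).div_const 2)

lemma hda_PY (h : HasDerivAt γ γ' t) : HasDerivAt (fun t => PY (γ t))
    (γ'.2 1 + (γ'.1 0 * (γ t).2 2 + (γ t).1 0 * γ'.2 2) / 2) t := by
  unfold PY
  exact (hda2 h 1).add (((hda1 h 0).mul (hda2 h 2)).div_const 2)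

/-- explicit differential of `H` -/
noncomputable def dHf (v w : E) : ℝ :=
  PX v * (w.2 0 - (w.1 1 * v.2 2 + v.1 1 * w.2 2) / 2)
  + PY v * (w.2 1 + (w.1 0 * v.2 2 + v.1 0 * w.2 2) / 2)
  + k / s v ^ 2 * ((2 * u v * (2 * v.1 0 * w.1 0 + 2 * v.1 1 * w.1 1) +
      32 * v.1 2 * w.1 2) / (2 * s v))

lemma hda_H (h : HasDerivAt γ γ' t) (hP : γ t ∈ P) : HasDerivAt (fun t => H (γ t))
    (dHf (γ t) γ') t := by
  unfold H dHf
  have hs := (s_pos hP).ne'
  refine (((((hda_PX h).pow 2).add ((hda_PY h).pow 2)).div_const 2).sub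
    ((hasDerivAt_const t k).div (hda_s h hP) hs)).congr_deriv ?_
  push_cast
  field_simp
  ring

end curve

/-! ### along the vector field -/

section field
variable {γ : ℝ → E} {a t : ℝ}

lemma xh_H (h : HasDerivAt γ (a • XH (γ t)) t) (hP : γ t ∈ P) :
    HasDerivAt (fun t => H (γ t)) 0 t := by
  refine (hda_H h hP).congr_deriv ?_
  have hs := (s_pos hP).ne'
  have hs2 := s_sq (γ t)
  simp only [dHf, XH, PX, PY, Prod.smul_fst, Prod.smul_snd, Pi.smul_apply, smul_eq_mul,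
    Matrix.cons_val_zero, Matrix.cons_val_one, Matrix.cons_val]
  field_simp
  ring

lemma xh_L (h : HasDerivAt γ (a • XH (γ t)) t) :
    HasDerivAt (fun t => L (γ t)) 0 t := by
  refine (hda_L h).congr_deriv ?_
  simp only [XH, PX, PY, Prod.smul_fst, Prod.smul_snd, Pi.smul_apply, smul_eq_mul,
    Matrix.cons_val_zero, Matrix.cons_val_one, Matrix.cons_val]
  ring

lemma xh_J (h : HasDerivAt γ (a • XH (γ t)) t) (hP : γ t ∈ P) :
    HasDerivAt (fun t => J (γ t)) (2 * H (γ t) * a) t := by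
  refine (hda_J h).congr_deriv ?_
  have hs := (s_pos hP).ne'
  have hs2 := s_sq (γ t)
  simp only [XH, H, PX, PY, Prod.smul_fst, Prod.smul_snd, Pi.smul_apply, smul_eq_mul,
    Matrix.cons_val_zero, Matrix.cons_val_one, Matrix.cons_val]
  have e : k / s (γ t) = k * S (γ t) / s (γ t) ^ 3 := by rw [← hs2]; field_simp
  rw [e]
  simp only [S, u]
  field_simp
  ring

lemma xh_B (h : HasDerivAt γ (a • XH (γ t)) t) (hP : γ t ∈ P) :
    HasDerivAt (fun t => B (γ t)) (-(2 * k * u (γ t) * J (γ t) / s (γ t) ^ 3 * a)) t := by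
  refine (hda_B h).congr_deriv ?_
  have hs := (s_pos hP).ne'
  simp only [XH, J, u, PX, PY, Prod.smul_fst, Prod.smul_snd, Pi.smul_apply, smul_eq_mul,
    Matrix.cons_val_zero, Matrix.cons_val_one, Matrix.cons_val]
  field_simp
  ring

lemma xh_s (h : HasDerivAt γ (a • XH (γ t)) t) (hP : γ t ∈ P) :
    HasDerivAt (fun t => s (γ t))
      (2 * (J (γ t) * u (γ t) + 4 * L (γ t) * (γ t).1 2) / s (γ t) * a) t := by
  refine (hda_s h hP).congr_deriv ?_
  have hs := (s_pos hP).ne'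
  simp only [XH, J, L, u, PX, PY, Prod.smul_fst, Prod.smul_snd, Pi.smul_apply, smul_eq_mul,
    Matrix.cons_val_zero, Matrix.cons_val_one, Matrix.cons_val]
  field_simp
  ring

end field

/-! ### rotation invariance -/

section rot
variable {c d : ℝ}

lemma u_rot (h : c ^ 2 + d ^ 2 = 1) (v : E) : u (rot c d v) = u v := by
  simp only [u, rot, Matrix.cons_val_zero, Matrix.cons_val_one]
  linear_combination (v.1 0 ^ 2 + v.1 1 ^ 2) * h

lemma S_rot (h : c ^ 2 + d ^ 2 = 1) (v : E) : S (rot c d v) = S v := by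
  have : (rot c d v).1 2 = v.1 2 := by simp [rot]
  rw [S, S, u_rot h, this]

lemma s_rot (h : c ^ 2 + d ^ 2 = 1) (v : E) : s (rot c d v) = s v := by
  rw [s, s, S_rot h]

lemma PX_rot (v : E) : PX (rot c d v) = c * PX v - d * PY v := by
  simp only [PX, PY, rot, Matrix.cons_val_zero, Matrix.cons_val_one, Matrix.cons_val]; ring

lemma PY_rot (v : E) : PY (rot c d v) = d * PX v + c * PY v := by
  simp only [PX, PY, rot, Matrix.cons_val_zero, Matrix.cons_val_one, Matrix.cons_val]; ring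

lemma H_rot (h : c ^ 2 + d ^ 2 = 1) (v : E) : H (rot c d v) = H v := by
  rw [H, H, s_rot h, PX_rot, PY_rot]
  linear_combination (PX v ^ 2 + PY v ^ 2) / 2 * h

lemma L_rot (h : c ^ 2 + d ^ 2 = 1) (v : E) : L (rot c d v) = L v := by
  simp only [L, rot, Matrix.cons_val_zero, Matrix.cons_val_one]
  linear_combination (v.1 0 * v.2 1 - v.1 1 * v.2 0) * h

lemma J_rot (h : c ^ 2 + d ^ 2 = 1) (v : E) : J (rot c d v) = J v := by
  simp only [J, rot, Matrix.cons_val_zero, Matrix.cons_val_one, Matrix.cons_val]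
  linear_combination (v.1 0 * v.2 0 + v.1 1 * v.2 1) * h

lemma B_rot (h : c ^ 2 + d ^ 2 = 1) (v : E) : B (rot c d v) = B v := by
  rw [B, B, u_rot h]
  simp only [rot, Matrix.cons_val_zero, Matrix.cons_val_one, Matrix.cons_val]
  linear_combination (v.2 0 ^ 2 + v.2 1 ^ 2) / 2 * h

lemma XH_rot (h : c ^ 2 + d ^ 2 = 1) (v : E) : XH (rot c d v) = rot c d (XH v) := by
  have e1 : (rot c d v).1 0 = c * v.1 0 - d * v.1 1 := by simp [rot]
  have e2 : (rot c d v).1 1 = d * v.1 0 + c * v.1 1 := by simp [rot]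
  have e3 : (rot c d v).1 2 = v.1 2 := by simp [rot]
  have e4 : (rot c d v).2 2 = v.2 2 := by simp [rot]
  unfold XH
  rw [s_rot h, PX_rot, PY_rot, u_rot h, e1, e2, e3, e4]
  ext i
  · fin_cases i
    · simp [rot]
    · simp [rot]
    · simp [rot]
      linear_combination (v.1 0 * PY v - v.1 1 * PX v) * h
  · fin_cases i
    · simp [rot]; ring
    · simp [rot]; ring
    · simp [rot]

lemma mem_P_rot (h : c ^ 2 + d ^ 2 = 1) {v : E} : rot c d v ∈ P ↔ v ∈ P := by
  rw [mem_P_iff, mem_P_iff, S_rot h]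

end rot

end Pool.Agent.W820.KH
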