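import Mathlib

/-!
# Kepler-Heisenberg problem: definitions and the statements of the subtasks `KH-*`

Phase space `E = (Fin 3 → ℝ) × (Fin 3 → ℝ)`, `v.1 = (x,y,z)`, `v.2 = (p_x,p_y,p_z)`.
-/

open Set Filter Topology
open scoped ContDiff

namespace Pool.Agent.W820.KH

abbrev E : Type := (Fin 3 → ℝ) × (Fin 3 → ℝ)

def u (v : E) : ℝ := v.1 0 ^ 2 + v.1 1 ^ 2
def S (v : E) : ℝ := u v ^ 2 + 16 * v.1 2 ^ 2
noncomputable def s (v : E) : ℝ := √(S v)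
noncomputable def k : ℝ := 1 / (8 * Real.pi)
noncomputable def PX (v : E) : ℝ := v.2 0 - v.1 1 * v.2 2 / 2
noncomputable def PY (v : E) : ℝ := v.2 1 + v.1 0 * v.2 2 / 2
/-- the Hamiltonian -/
noncomputable def H (v : E) : ℝ := (PX v ^ 2 + PY v ^ 2) / 2 - k / s v
/-- angular momentum -/
def L (v : E) : ℝ := v.1 0 * v.2 1 - v.1 1 * v.2 0
/-- dilational momentum -/
def J (v : E) : ℝ := v.1 0 * v.2 0 + v.1 1 * v.2 1 + 2 * (v.1 2 * v.2 2)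
/-- the Lyapunov function -/
noncomputable def B (v : E) : ℝ := (v.2 0 ^ 2 + v.2 1 ^ 2) / 2 + u v * v.2 2 ^ 2 / 8
/-- phase space: position different from the origin -/
def P : Set E := {v | v.1 ≠ 0}
/-- the Hamiltonian vector field of `H` -/
noncomputable def XH (v : E) : E :=
  (![PX v, PY v, (v.1 0 * PY v - v.1 1 * PX v) / 2],
   ![-(v.2 2 * PY v / 2) - 2 * k * u v * v.1 0 / s v ^ 3,
     v.2 2 * PX v / 2 - 2 * k * u v * v.1 1 / s v ^ 3,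
     -(16 * k * v.1 2 / s v ^ 3)])
/-- rotation about the `z`-axis, acting on positions and momenta (used with `c^2+d^2=1`) -/
def rot (c d : ℝ) (v : E) : E :=
  (![c * v.1 0 - d * v.1 1, d * v.1 0 + c * v.1 1, v.1 2],
   ![c * v.2 0 - d * v.2 1, d * v.2 0 + c * v.2 1, v.2 2])

/-- A complete smooth flow on `E` which on `P` is a positive time change of the flow of `XH`. -/
structure IsKHFlow (φ : ℝ → E → E) (g : E → ℝ) : Prop where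
  smooth : ContDiff ℝ ∞ (fun p : ℝ × E => φ p.1 p.2)
  zero : ∀ x, φ 0 x = x
  add : ∀ a b x, φ (a + b) x = φ a (φ b x)
  mapsP : ∀ x ∈ P, ∀ a, φ a x ∈ P
  hasDeriv : ∀ x ∈ P, ∀ a, HasDerivAt (fun t => φ t x) (g (φ a x) • XH (φ a x)) a
  gcont : Continuous g
  gpos : ∀ x ∈ P, 0 < g x
  rot_comm : ∀ c d : ℝ, c ^ 2 + d ^ 2 = 1 → ∀ a x, φ a (rot c d x) = rot c d (φ a x)
  -- consequences along orbits
  Hc : ∀ x ∈ P, ∀ a, H (φ a x) = H x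
  Lc : ∀ x ∈ P, ∀ a, L (φ a x) = L x
  dJ : ∀ x ∈ P, ∀ a, HasDerivAt (fun t => J (φ t x)) (2 * H x * g (φ a x)) a
  dB : ∀ x ∈ P, ∀ a, HasDerivAt (fun t => B (φ t x))
    (-(2 * k * u (φ a x) * J (φ a x) / s (φ a x) ^ 3 * g (φ a x))) a
  ds : ∀ x ∈ P, ∀ a, HasDerivAt (fun t => s (φ t x))
    (2 * (J (φ a x) * u (φ a x) + 4 * L (φ a x) * (φ a x).1 2) / s (φ a x) * g (φ a x)) a

/-- the region with `H ≠ 0` and `L ≠ 0` -/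
def W' : Set E := {v | v ∈ P ∧ H v ≠ 0 ∧ L v ≠ 0}
/-- the region with `H ≠ 0` -/
def W : Set E := {v | v ∈ P ∧ H v ≠ 0}

/-- the good set: near `x` the Lyapunov function on an orbit segment is bounded by its value at the
endpoint of the segment (or by a constant). -/
def Vgood (φ : ℝ → E → E) : Set E :=
  {x | x ∈ W' ∧ ∃ M : ℝ, ∀ᶠ x' in 𝓝 x, ∀ σ : ℝ, ∀ τ ∈ uIcc 0 σ,
    B (φ τ x') ≤ max M (B (φ σ x'))}

/-! ## Statements of the subtasks -/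

/-- KH-EPS: summation of smooth functions with small coefficients. -/
def S_EPS : Prop := ∀ (G : Type) [NormedAddCommGroup G] [NormedSpace ℝ G] [CompleteSpace G]
    (F : ℕ → ℕ → E → G),
  (∀ m j, ContDiff ℝ ∞ (F m j)) → (∀ m j, HasCompactSupport (F m j)) →
  ∃ ε : ℕ → ℝ, (∀ j, 0 < ε j) ∧
    (∀ m j, m ≤ j → ∀ x, ε j * ‖F m j x‖ ≤ (1 / 2) ^ j ∧
      ε j * ‖fderiv ℝ (F m j) x‖ ≤ (1 / 2) ^ j) ∧
    ∀ (m : ℕ) (c : ℕ → ℝ), (∀ j, |c j| ≤ 1) →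
      (∀ x, Summable fun j => (c j * ε j) • F m j x) ∧
      ContDiff ℝ ∞ (fun x => ∑' j, (c j * ε j) • F m j x) ∧
      ∀ x, (Summable fun j => ‖(c j * ε j) • fderiv ℝ (F m j) x‖) ∧
        fderiv ℝ (fun x => ∑' j, (c j * ε j) • F m j x) x
          = ∑' j, (c j * ε j) • fderiv ℝ (F m j) x

/-- KH-CROSS: a function `f` which is constant along the orbits, and equals `β` on the level
`{J = c}`, is smooth. -/
def S_CROSS : Prop := ∀ (φ : ℝ → E → E) (W : Set E) (J β : E → ℝ) (c : ℝ),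
  ContDiff ℝ ∞ (fun p : ℝ × E => φ p.1 p.2) → (∀ x, φ 0 x = x) →
  (∀ a b x, φ (a + b) x = φ a (φ b x)) →
  IsOpen W → (∀ x ∈ W, ∀ a, φ a x ∈ W) → ContDiff ℝ ∞ J →
  (∀ x ∈ W, ∀ a, deriv (fun t => J (φ t x)) a ≠ 0) →
  ContDiff ℝ ∞ β → HasCompactSupport β →
  (∀ x ∈ W, ∃ N ∈ 𝓝 x, ∃ T : ℝ, ∀ y ∈ N, ∀ a, φ a y ∈ tsupport β → |a| ≤ T) →
  ∃ f : E → ℝ, ContDiffOn ℝ ∞ f W ∧
    (∀ x ∈ W, ∀ a, J (φ a x) = c → f x = β (φ a x)) ∧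
    (∀ x ∈ W, (∀ a, J (φ a x) ≠ c) → f x = 0) ∧
    ∀ y ∈ W, J y = c → ∀ w, fderiv ℝ J y w = 0 → fderiv ℝ f y w = fderiv ℝ β y w

/-- KH-BUMP: rotation invariant bump functions. -/
def S_BUMP : Prop := ∀ (V : Set E) (y : E), IsOpen V → y ∈ V → u y ≠ 0 →
  (∀ c d : ℝ, c ^ 2 + d ^ 2 = 1 → ∀ v ∈ V, rot c d v ∈ V) →
  ∃ χ : E → ℝ, ContDiff ℝ ∞ χ ∧ HasCompactSupport χ ∧ tsupport χ ⊆ V ∧
    (∀ c d : ℝ, c ^ 2 + d ^ 2 = 1 → ∀ v, χ (rot c d v) = χ v) ∧ ∀ᶠ v in 𝓝 y, χ v = 1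

/-- KH-COEF: Baire category choice of coefficients. -/
def S_COEF : Prop := ∀ a : ℕ → ℕ → ℝ, (∀ m, Summable fun j => |a m j|) →
  (∀ m, ∃ j, a m j ≠ 0) → ∃ c : ℕ → ℝ, (∀ j, |c j| ≤ 1) ∧ ∀ m, ∑' j, c j * a m j ≠ 0

/-- KH-SEG: orbit segments with endpoints in a compact set and bounded `B` have bounded length. -/
def S_SEG : Prop := ∀ (φ : ℝ → E → E) (g : E → ℝ), IsKHFlow φ g → ∀ K : Set E, IsCompact K →
  K ⊆ W' → ∀ M : ℝ, ∃ T : ℝ, ∀ x ∈ K, ∀ σ : ℝ, φ σ x ∈ K →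
    (∀ τ ∈ uIcc 0 σ, B (φ τ x) ≤ M) → |σ| ≤ T

/-- KH-GOOD: the good set is open, rotation invariant and dense in `W`. -/
def S_GOOD : Prop := ∀ (φ : ℝ → E → E) (g : E → ℝ), IsKHFlow φ g →
  IsOpen (Vgood φ) ∧ (∀ c d : ℝ, c ^ 2 + d ^ 2 = 1 → ∀ v ∈ Vgood φ, rot c d v ∈ Vgood φ) ∧
  ∀ U : Set E, IsOpen U → (U ∩ W).Nonempty → (U ∩ Vgood φ).Nonempty

/-- KH-LIN: a direction which is killed by `dH`, `dL`, `dJ` but not by one of the invariants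
`u, z, p_z` -/
def S_LIN : Prop := ∀ y ∈ P, u y ≠ 0 → ∃ w : E, fderiv ℝ H y w = 0 ∧ fderiv ℝ L y w = 0 ∧
  fderiv ℝ J y w = 0 ∧ (fderiv ℝ u y w ≠ 0 ∨ w.1 2 ≠ 0 ∨ w.2 2 ≠ 0)

end Pool.Agent.W820.KH
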