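import Pool.Agent.W820.KH.Vec
import Pool.Agent.GR.Flow

open Set Filter Topology
open scoped ContDiff

namespace Pool.Agent.W820.KH

/-- `rot c d` as a linear map -/
def rotLin (c d : ℝ) : E →ₗ[ℝ] E where
  toFun := rot c d
  map_add' v w := by
    ext i <;> fin_cases i <;> simp [rot] <;> ring
  map_smul' a v := by
    ext i <;> fin_cases i <;> simp [rot] <;> ring

noncomputable def rotL (c d : ℝ) : E →L[ℝ] E := LinearMap.toContinuousLinearMap (rotLin c d)

lemma rotL_apply (c d : ℝ) (v : E) : rotL c d v = rot c d v := rfl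

lemma continuous_rot (c d : ℝ) : Continuous (rot c d) := (rotL c d).continuous

lemma contDiff_rot (c d : ℝ) : ContDiff ℝ ∞ (rot c d) := (rotL c d).contDiff

lemma rot_smul (c d a : ℝ) (v : E) : rot c d (a • v) = a • rot c d v := (rotLin c d).map_smul a v

lemma rot_rot_neg {c d : ℝ} (h : c ^ 2 + d ^ 2 = 1) (v : E) : rot c d (rot c (-d) v) = v := by
  ext i
  · fin_cases i
    · simp [rot]; linear_combination (v.1 0) * h
    · simp [rot]; linear_combination (v.1 1) * h
    · simp [rot]
  · fin_cases i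
    · simp [rot]; linear_combination (v.2 0) * h
    · simp [rot]; linear_combination (v.2 1) * h
    · simp [rot]

lemma rot_neg_rot {c d : ℝ} (h : c ^ 2 + d ^ 2 = 1) (v : E) : rot c (-d) (rot c d v) = v := by
  have := rot_rot_neg (c := c) (d := -d) (by simpa using h) v
  rwa [neg_neg] at this

theorem exists_flow : ∃ (φ : ℝ → E → E) (g : E → ℝ), IsKHFlow φ g := by
  obtain ⟨g, Z, hg, hZ, hgpos, -, hZ0, hZX, hL, hb, hrot⟩ := exists_Z Pool.Agent.W22.KH.t_EPS
  choose φ h0 h1 using fun x => Pool.Agent.GR.Flow.exists_solution (K := 2) (M := 2) hL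
    (by simpa using hb) x
  have hflow : Pool.Agent.GR.Flow.IsFlowOf Z (fun t x => φ x t) := ⟨h0, h1⟩
  have hsm : ContDiff ℝ ∞ (fun p : ℝ × E => φ p.2 p.1) := by
    rw [contDiff_infty]
    intro m
    have h2 := Pool.Agent.GR.Flow.contDiff_flow (X := ⟨Z, hZ.continuous⟩) (m := m + 1)
      (Nat.succ_ne_zero m) (hZ.of_le (by exact_mod_cast le_top)) (K := 2) hL hflow
    exact h2.of_le (by exact_mod_cast Nat.le_succ m)
  have hadd := Pool.Agent.GR.Flow.IsFlowOf.add hL hflow
  have huniq : ∀ γ δ : ℝ → E, (∀ t, HasDerivAt γ (Z (γ t)) t) → (∀ t, HasDerivAt δ (Z (δ t)) t) →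
      γ 0 = δ 0 → γ = δ := by
    intro γ δ hγ hδ h
    exact ODE_solution_unique_univ (v := fun _ => Z) (s := fun _ => univ) (K := 2) (t₀ := 0)
      (fun t => hL.lipschitzOnWith) (fun t => ⟨hγ t, trivial⟩) (fun t => ⟨hδ t, trivial⟩) h
  have hconst : ∀ y ∉ P, ∀ t, φ y t = y := by
    intro y hy t
    have := huniq (φ y) (fun _ => y) (h1 y) (fun t => by
      rw [hZ0 y hy]; exact hasDerivAt_const t y) (by rw [h0])
    rw [this]
  have hmaps : ∀ x ∈ P, ∀ a, φ x a ∈ P := by
    intro x hx a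
    by_contra h
    have h2 := hconst _ h (-a)
    rw [← hadd (-a) a x, neg_add_cancel, h0] at h2
    rw [← h2] at h
    exact h hx
  have hder : ∀ x ∈ P, ∀ a, HasDerivAt (fun t => φ x t) (g (φ x a) • XH (φ x a)) a := by
    intro x _ a
    rw [← hZX]; exact h1 x a
  have hHc : ∀ x ∈ P, ∀ a, H (φ x a) = H x := by
    intro x hx a
    have hd : ∀ t, HasDerivAt (fun t => H (φ x t)) 0 t := fun t => xh_H (hder x hx t) (hmaps x hx t)
    have := is_const_of_deriv_eq_zero (fun t => (hd t).differentiableAt) (fun t => (hd t).deriv) a 0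
    simpa [h0] using this
  have hLc : ∀ x ∈ P, ∀ a, L (φ x a) = L x := by
    intro x hx a
    have hd : ∀ t, HasDerivAt (fun t => L (φ x t)) 0 t := fun t => xh_L (hder x hx t)
    have := is_const_of_deriv_eq_zero (fun t => (hd t).differentiableAt) (fun t => (hd t).deriv) a 0
    simpa [h0] using this
  refine ⟨fun t x => φ x t, g, ⟨hsm, h0, hadd, hmaps, hder, hg.continuous, hgpos, ?_, hHc, hLc, ?_,
    ?_, ?_⟩⟩
  · intro c d h a x
    have hZr : ∀ x, Z (rot c d x) = rot c d (Z x) := by
      intro x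
      rw [hZX, hZX, hrot c d h, XH_rot h, rot_smul]
    have := huniq (φ (rot c d x)) (fun t => rot c d (φ x t)) (h1 _) (fun t => by
      rw [hZr]
      exact (rotL c d).hasFDerivAt.comp_hasDerivAt t (h1 x t)) (by simp only [h0])
    exact congrFun this a
  · intro x hx a
    have := xh_J (hder x hx a) (hmaps x hx a)
    rwa [hHc x hx a] at this
  · intro x hx a
    exact xh_B (hder x hx a) (hmaps x hx a)
  · intro x hx a
    exact xh_s (hder x hx a) (hmaps x hx a)

end Pool.Agent.W820.KH
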