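import Pool.Agent.W820.KH.FlowKH

open Set Filter Topology
open scoped ContDiff

namespace Pool.Agent.W820.KH

section
variable {φ : ℝ → E → E} {g : E → ℝ}

lemma quasi {f : ℝ → ℝ} {M : ℝ} (h : ∀ p q, p ≤ q → ∀ τ ∈ Icc p q, f τ ≤ max (f p) (f q))
    (h0 : f 0 ≤ M) (σ τ : ℝ) (hτ : τ ∈ uIcc 0 σ) : f τ ≤ max M (f σ) := by
  rcases le_total 0 σ with h1 | h1
  · rw [uIcc_of_le h1] at hτ
    exact (h 0 σ h1 τ hτ).trans (max_le_max h0 le_rfl)
  · rw [uIcc_of_ge h1] at hτ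
    refine (h σ 0 h1 τ hτ).trans ?_
    rw [max_comm]
    exact max_le_max h0 le_rfl

lemma IsKHFlow.contB (h : IsKHFlow φ g) : Continuous (fun p : ℝ × E => B (φ p.1 p.2)) :=
  contDiff_B.continuous.comp h.smooth.continuous

lemma IsKHFlow.contJ (h : IsKHFlow φ g) : Continuous (fun p : ℝ × E => J (φ p.1 p.2)) :=
  contDiff_J.continuous.comp h.smooth.continuous

lemma IsKHFlow.B_mono (h : IsKHFlow φ g) {x : E} (hx : x ∈ P) {p q : ℝ} (hpq : p ≤ q)
    (hJ : ∀ t ∈ Icc p q, J (φ t x) ≤ 0) : B (φ p x) ≤ B (φ q x) := by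
  have hd := h.dB x hx
  have hm : MonotoneOn (fun t => B (φ t x)) (Icc p q) := by
    apply monotoneOn_of_deriv_nonneg (convex_Icc p q)
    · exact fun t _ => (hd t).continuousAt.continuousWithinAt
    · exact fun t _ => (hd t).differentiableAt.differentiableWithinAt
    · intro t ht
      rw [interior_Icc] at ht
      rw [(hd t).deriv]
      have h1 := hJ t (Ioo_subset_Icc_self ht)
      have hP := h.mapsP x hx t
      have h2 := s_pos hP
      have h3 := h.gpos _ hP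
      have h4 := u_nonneg (φ t x)
      have h5 := k_pos
      have h6 : 2 * k * u (φ t x) * J (φ t x) / s (φ t x) ^ 3 * g (φ t x) ≤ 0 := by
        apply mul_nonpos_of_nonpos_of_nonneg _ h3.le
        apply div_nonpos_of_nonpos_of_nonneg _ (by positivity)
        exact mul_nonpos_of_nonneg_of_nonpos (by positivity) h1
      linarith
  exact hm (left_mem_Icc.2 hpq) (right_mem_Icc.2 hpq) hpq

lemma IsKHFlow.B_anti (h : IsKHFlow φ g) {x : E} (hx : x ∈ P) {p q : ℝ} (hpq : p ≤ q)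
    (hJ : ∀ t ∈ Icc p q, 0 ≤ J (φ t x)) : B (φ q x) ≤ B (φ p x) := by
  have hd := h.dB x hx
  have hm : AntitoneOn (fun t => B (φ t x)) (Icc p q) := by
    apply antitoneOn_of_deriv_nonpos (convex_Icc p q)
    · exact fun t _ => (hd t).continuousAt.continuousWithinAt
    · exact fun t _ => (hd t).differentiableAt.differentiableWithinAt
    · intro t ht
      rw [interior_Icc] at ht
      rw [(hd t).deriv]
      have h1 := hJ t (Ioo_subset_Icc_self ht)
      have hP := h.mapsP x hx t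
      have h2 := s_pos hP
      have h3 := h.gpos _ hP
      have h4 := u_nonneg (φ t x)
      have h5 := k_pos
      have h6 : 0 ≤ 2 * k * u (φ t x) * J (φ t x) / s (φ t x) ^ 3 * g (φ t x) := by
        positivity
      linarith
  exact hm (left_mem_Icc.2 hpq) (right_mem_Icc.2 hpq) hpq

lemma IsKHFlow.J_strictMono (h : IsKHFlow φ g) {x : E} (hx : x ∈ P) (hH : 0 < H x) :
    StrictMono (fun t => J (φ t x)) := by
  apply strictMono_of_deriv_pos
  intro t
  rw [(h.dJ x hx t).deriv]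
  have := h.gpos _ (h.mapsP x hx t)
  positivity

lemma IsKHFlow.J_strictAnti (h : IsKHFlow φ g) {x : E} (hx : x ∈ P) (hH : H x < 0) :
    StrictAnti (fun t => J (φ t x)) := by
  apply strictAnti_of_deriv_neg
  intro t
  rw [(h.dJ x hx t).deriv]
  have := h.gpos _ (h.mapsP x hx t)
  exact mul_neg_of_neg_of_pos (by linarith) this

lemma isOpen_W' : IsOpen W' := by
  have h : W' = W ∩ {v | L v ≠ 0} := by
    ext v; simp only [W', W, mem_ofPred_eq, mem_inter_iff]; tauto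
  rw [h]
  exact isOpen_W.inter (isOpen_ne_fun contDiff_L.continuous continuous_const)

/-- conclusion for orbits without crossing or with `H < 0` -/
lemma mem_Vgood_of {x : E} (hx : x ∈ W') (h0 : ∀ y, φ 0 y = y)
    (h : ∀ᶠ x' in 𝓝 x, ∀ p q, p ≤ q → ∀ τ ∈ Icc p q,
      B (φ τ x') ≤ max (B (φ p x')) (B (φ q x'))) : x ∈ Vgood φ := by
  refine ⟨hx, B x + 1, ?_⟩
  have hB : ∀ᶠ x' in 𝓝 x, B x' < B x + 1 :=
    (contDiff_B.continuous.tendsto x).eventually (gt_mem_nhds (by linarith))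
  filter_upwards [h, hB] with x' h1 h2 σ τ hτ
  exact quasi (f := fun t => B (φ t x')) h1 (by simp only [h0]; exact h2.le) σ τ hτ

lemma good_neg (h : IsKHFlow φ g) {x : E} (hx : x ∈ W') (hH : H x < 0) : x ∈ Vgood φ := by
  apply mem_Vgood_of hx h.zero
  have h1 : ∀ᶠ x' in 𝓝 x, H x' < 0 :=
    ((contDiffOn_H.continuousOn.continuousAt (isOpen_P.mem_nhds hx.1)).tendsto).eventually
      (gt_mem_nhds hH)
  filter_upwards [h1, isOpen_P.mem_nhds hx.1] with x' h2 h3 p q hpq τ hτ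
  have hJ := (h.J_strictAnti h3 h2).antitone
  rcases le_total 0 (J (φ τ x')) with h4 | h4
  · refine le_max_of_le_left (h.B_anti h3 hτ.1 fun t ht => h4.trans (hJ ht.2))
  · refine le_max_of_le_right (h.B_mono h3 hτ.2 fun t ht => (hJ ht.1).trans h4)

lemma good_cross (h : IsKHFlow φ g) {x : E} (hx : x ∈ W') (hH : 0 < H x) {σ₀ : ℝ}
    (hJ0 : J (φ σ₀ x) = 0) : x ∈ Vgood φ := by
  refine ⟨hx, B (φ σ₀ x) + 1, ?_⟩
  have hH' : ∀ᶠ x' in 𝓝 x, 0 < H x' :=
    ((contDiffOn_H.continuousOn.continuousAt (isOpen_P.mem_nhds hx.1)).tendsto).eventually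
      (lt_mem_nhds hH)
  have hB : ∀ᶠ p : ℝ × E in 𝓝 (σ₀, x), B (φ p.1 p.2) < B (φ σ₀ x) + 1 :=
    (h.contB.tendsto (σ₀, x)).eventually (gt_mem_nhds (by simp))
  rw [nhds_prod_eq] at hB
  obtain ⟨pa, ha, pb, hb, hab⟩ := Filter.eventually_prod_iff.1 hB
  obtain ⟨δ, hδ, hball⟩ := Metric.eventually_nhds_iff.1 ha
  have hm := h.J_strictMono hx.1 hH
  have e1 : J (φ (σ₀ - δ / 2) x) < 0 := by rw [← hJ0]; exact hm (by linarith)
  have e2 : 0 < J (φ (σ₀ + δ / 2) x) := by rw [← hJ0]; exact hm (by linarith)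
  have c1 : Continuous fun x' => J (φ (σ₀ - δ / 2) x') :=
    h.contJ.comp (Continuous.prodMk_right (σ₀ - δ / 2))
  have c2 : Continuous fun x' => J (φ (σ₀ + δ / 2) x') :=
    h.contJ.comp (Continuous.prodMk_right (σ₀ + δ / 2))
  filter_upwards [hH', hb, isOpen_P.mem_nhds hx.1, (c1.tendsto x).eventually (gt_mem_nhds e1),
    (c2.tendsto x).eventually (lt_mem_nhds e2)] with x' h1 h2 h3 h4 h5 σ τ hτ
  have hcont : ContinuousOn (fun t => J (φ t x')) (Icc (σ₀ - δ / 2) (σ₀ + δ / 2)) :=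
    fun t _ => (h.dJ x' h3 t).continuousAt.continuousWithinAt
  obtain ⟨σ', hσ', hz⟩ := intermediate_value_Icc (by linarith) hcont
    (show (0 : ℝ) ∈ Icc _ _ from ⟨h4.le, h5.le⟩)
  simp only at hz
  have hmono := (h.J_strictMono h3 h1).monotone
  have hBσ : B (φ σ' x') < B (φ σ₀ x) + 1 := by
    refine hab (hball ?_) h2
    rw [Real.dist_eq, abs_lt]
    constructor <;> linarith [hσ'.1, hσ'.2]
  have key : B (φ τ x') ≤ B (φ σ' x') := by
    rcases le_total τ σ' with h6 | h6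
    · exact h.B_mono h3 h6 fun t ht => by rw [← hz]; exact hmono ht.2
    · exact h.B_anti h3 h6 fun t ht => by rw [← hz]; exact hmono ht.1
  exact le_max_of_le_left (key.trans hBσ.le)

lemma good_nocross (h : IsKHFlow φ g) {x : E} (hx : x ∈ W')
    (hN : ∀ᶠ x' in 𝓝 x, ∀ σ, J (φ σ x') ≠ 0) : x ∈ Vgood φ := by
  apply mem_Vgood_of hx h.zero
  filter_upwards [hN, isOpen_P.mem_nhds hx.1] with x' h2 h3 p q hpq τ hτ
  have hcont : Continuous (fun t => J (φ t x')) :=
    continuous_iff_continuousAt.2 fun t => (h.dJ x' h3 t).continuousAt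
  rcases lt_or_gt_of_ne (h2 0) with h4 | h4
  · -- J < 0 everywhere
    have h5 : ∀ t, J (φ t x') ≤ 0 := by
      intro t
      by_contra h6
      push Not at h6
      obtain ⟨r, hr⟩ := mem_range_of_exists_le_of_exists_ge hcont ⟨0, h4.le⟩ ⟨t, h6.le⟩
      exact h2 r hr
    exact le_max_of_le_right (h.B_mono h3 hτ.2 fun t _ => h5 t)
  · have h5 : ∀ t, 0 ≤ J (φ t x') := by
      intro t
      by_contra h6
      push Not at h6
      obtain ⟨r, hr⟩ := mem_range_of_exists_le_of_exists_ge hcont ⟨t, h6.le⟩ ⟨0, h4.le⟩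
      exact h2 r hr
    exact le_max_of_le_left (h.B_anti h3 hτ.1 fun t _ => h5 t)

lemma dense_L {U : Set E} (hU : IsOpen U) {v : E} (hv : v ∈ U) : ∃ x ∈ U, L x ≠ 0 := by
  by_cases hL : L v ≠ 0
  · exact ⟨v, hv, hL⟩
  push Not at hL
  set w : E := (![1, 0, 0], ![0, 1, 0]) with hw
  have hLw : ∀ t : ℝ, L (v + t • w) = t * (v.1 0 + v.2 1) + t ^ 2 := by
    intro t
    have : L v = 0 := hL
    unfold L at this ⊢
    simp only [hw, Prod.fst_add, Prod.snd_add, Prod.smul_fst, Prod.smul_snd, Pi.add_apply,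
      Pi.smul_apply, smul_eq_mul, Matrix.cons_val_zero, Matrix.cons_val_one]
    linear_combination this
  have hcont : Continuous fun t : ℝ => v + t • w := by fun_prop
  have hev : ∀ᶠ t in 𝓝 (0 : ℝ), v + t • w ∈ U :=
    hcont.continuousAt.eventually (by simpa using hU.mem_nhds hv)
  obtain ⟨δ, hδ, hball⟩ := Metric.eventually_nhds_iff.1 hev
  by_cases h1 : v.1 0 + v.2 1 + δ / 2 = 0
  · refine ⟨v + (δ / 4) • w, hball ?_, ?_⟩
    · rw [dist_zero_right, Real.norm_eq_abs, abs_of_pos (by linarith)]; linarith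
    · rw [hLw]
      have : δ / 4 * (v.1 0 + v.2 1) + (δ / 4) ^ 2 = δ / 4 * (-(δ / 4)) := by
        have h2 : v.1 0 + v.2 1 = -(δ / 2) := by linarith
        rw [h2]; ring
      rw [this]
      have : 0 < δ / 4 := by linarith
      exact mul_ne_zero this.ne' (neg_ne_zero.2 this.ne')
  · refine ⟨v + (δ / 2) • w, hball ?_, ?_⟩
    · rw [dist_zero_right, Real.norm_eq_abs, abs_of_pos (by linarith)]; linarith
    · rw [hLw]
      have : δ / 2 * (v.1 0 + v.2 1) + (δ / 2) ^ 2 = δ / 2 * (v.1 0 + v.2 1 + δ / 2) := by ring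
      rw [this]
      exact mul_ne_zero (by linarith) h1

end

theorem t_GOOD : S_GOOD := by
  intro φ g h
  refine ⟨?_, ?_, ?_⟩
  · rw [isOpen_iff_mem_nhds]
    rintro x ⟨hx, M, hM⟩
    have h1 := eventually_eventually_nhds.2 hM
    filter_upwards [h1, isOpen_W'.mem_nhds hx] with y hy hyW
    exact ⟨hyW, M, hy⟩
  · rintro c d hcd v ⟨hv, M, hM⟩
    refine ⟨⟨(mem_P_rot hcd).2 hv.1, by rw [H_rot hcd]; exact hv.2.1,
      by rw [L_rot hcd]; exact hv.2.2⟩, M, ?_⟩
    have hcd' : c ^ 2 + (-d) ^ 2 = 1 := by simpa using hcd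
    have ht : Tendsto (rot c (-d)) (𝓝 (rot c d v)) (𝓝 v) := by
      have := (continuous_rot c (-d)).tendsto (rot c d v)
      rwa [rot_neg_rot hcd] at this
    filter_upwards [ht.eventually hM] with x' hx' σ τ hτ
    have h2 := hx' σ τ hτ
    rw [h.rot_comm c (-d) hcd', h.rot_comm c (-d) hcd', B_rot hcd', B_rot hcd'] at h2
    exact h2
  · rintro U hU ⟨v, hvU, hvW⟩
    obtain ⟨x, ⟨hxU, hxW⟩, hxL⟩ := dense_L (hU.inter isOpen_W) (v := v) ⟨hvU, hvW⟩
    have hxW' : x ∈ W' := ⟨hxW.1, hxW.2, hxL⟩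
    rcases lt_or_gt_of_ne hxW.2 with hH | hH
    · exact ⟨x, hxU, good_neg h hxW' hH⟩
    · by_cases hc : ∃ x1 ∈ U, x1 ∈ W' ∧ 0 < H x1 ∧ ∃ σ₀, J (φ σ₀ x1) = 0
      · obtain ⟨x1, h1, h2, h3, σ₀, h4⟩ := hc
        exact ⟨x1, h1, good_cross h h2 h3 h4⟩
      · push Not at hc
        refine ⟨x, hxU, good_nocross h hxW' ?_⟩
        have hH' : ∀ᶠ x' in 𝓝 x, 0 < H x' :=
          ((contDiffOn_H.continuousOn.continuousAt (isOpen_P.mem_nhds hxW.1)).tendsto).eventually
            (lt_mem_nhds hH)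
        filter_upwards [hU.mem_nhds hxU, isOpen_W'.mem_nhds hxW', hH'] with x' h1 h2 h3
        exact hc x' h1 h2 h3

end Pool.Agent.W820.KH
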