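import Pool.Agent.W820.KH.Calc
import Pool.Agent.W22.KH.Eps

open Set Filter Topology
open scoped ContDiff

namespace Pool.Agent.W820.KH

/-! ### cutoffs from an exhaustion function -/

section cut
variable {O : Set E} {ρ : E → ℝ}

open Classical in
/-- cutoff `= 1` where `ρ ≤ M - 1`, `= 0` where `ρ ≥ M` or outside `O`. -/
noncomputable def cut (O : Set E) (ρ : E → ℝ) (M : ℝ) (x : E) : ℝ :=
  if x ∈ O then Real.smoothTransition (M - ρ x) else 0

lemma cut_nonneg (M : ℝ) (x : E) : 0 ≤ cut O ρ M x := by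
  unfold cut; split_ifs
  · exact Real.smoothTransition.nonneg _
  · exact le_rfl

lemma cut_of_le {M : ℝ} {x : E} (hx : x ∈ O) (h : ρ x ≤ M - 1) : cut O ρ M x = 1 := by
  unfold cut; rw [if_pos hx]
  exact Real.smoothTransition.one_of_one_le (by linarith)

lemma cut_zero_of_notMem {M : ℝ} {x : E} (hx : x ∉ {x | x ∈ O ∧ ρ x ≤ M}) :
    cut O ρ M x = 0 := by
  unfold cut
  split_ifs with h
  · apply Real.smoothTransition.zero_of_nonpos
    simp only [mem_ofPred_eq, not_and, not_le] at hx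
    linarith [hx h]
  · rfl

lemma support_cut (M : ℝ) : Function.support (cut O ρ M) ⊆ {x | x ∈ O ∧ ρ x ≤ M} := by
  intro x hx
  by_contra h
  exact hx (cut_zero_of_notMem h)

lemma tsupport_cut (hc : ∀ M, IsCompact {x | x ∈ O ∧ ρ x ≤ M}) (M : ℝ) :
    tsupport (cut O ρ M) ⊆ {x | x ∈ O ∧ ρ x ≤ M} :=
  closure_minimal (support_cut M) (hc M).isClosed

lemma hasCompactSupport_cut (hc : ∀ M, IsCompact {x | x ∈ O ∧ ρ x ≤ M}) (M : ℝ) :
    HasCompactSupport (cut O ρ M) :=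
  (hc M).of_isClosed_subset (isClosed_tsupport _) (tsupport_cut hc M)

lemma contDiff_cut (hO : IsOpen O) (hρ : ContDiffOn ℝ ∞ ρ O)
    (hc : ∀ M, IsCompact {x | x ∈ O ∧ ρ x ≤ M}) (M : ℝ) : ContDiff ℝ ∞ (cut O ρ M) := by
  rw [contDiff_iff_contDiffAt]
  intro x
  by_cases hx : x ∈ O
  · have h1 : ContDiffAt ℝ ∞ (fun y => Real.smoothTransition (M - ρ y)) x :=
      (Real.smoothTransition.contDiff.contDiffAt).comp x
        (contDiffAt_const.sub (hρ.contDiffAt (hO.mem_nhds hx)))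
    refine h1.congr_of_eventuallyEq ?_
    filter_upwards [hO.mem_nhds hx] with y hy
    unfold cut; rw [if_pos hy]
  · have h1 : ContDiffAt ℝ ∞ (fun _ : E => (0 : ℝ)) x := contDiffAt_const
    refine h1.congr_of_eventuallyEq ?_
    have h2 : {x | x ∈ O ∧ ρ x ≤ M}ᶜ ∈ 𝓝 x :=
      (hc M).isClosed.isOpen_compl.mem_nhds (fun h => hx h.1)
    filter_upwards [h2] with y hy
    exact cut_zero_of_notMem hy

/-- product of a cutoff and a function smooth on `O` -/
lemma contDiff_smul_of_tsupport {G : Type} [NormedAddCommGroup G] [NormedSpace ℝ G] {χ : E → ℝ}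
    {f : E → G} (hO : IsOpen O) (hχ : ContDiff ℝ ∞ χ) (hs : tsupport χ ⊆ O)
    (hf : ContDiffOn ℝ ∞ f O) : ContDiff ℝ ∞ (fun x => χ x • f x) := by
  rw [contDiff_iff_contDiffAt]
  intro x
  by_cases hx : x ∈ O
  · exact hχ.contDiffAt.smul (hf.contDiffAt (hO.mem_nhds hx))
  · have h1 : ContDiffAt ℝ ∞ (fun _ : E => (0 : G)) x := contDiffAt_const
    refine h1.congr_of_eventuallyEq ?_
    have h2 : (tsupport χ)ᶜ ∈ 𝓝 x := (isClosed_tsupport χ).isOpen_compl.mem_nhds
      (fun h => hx (hs h))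
    filter_upwards [h2] with y hy
    rw [image_eq_zero_of_notMem_tsupport hy, zero_smul]

end cut

/-! ### exhaustion function of `P` -/

def N2 (v : E) : ℝ := v.1 0 ^ 2 + v.1 1 ^ 2 + v.1 2 ^ 2 + (v.2 0 ^ 2 + v.2 1 ^ 2 + v.2 2 ^ 2)

lemma contDiff_N2 : ContDiff ℝ ∞ N2 := by unfold N2; fun_prop

lemma N2_nonneg (v : E) : 0 ≤ N2 v := by unfold N2; positivity

lemma norm_le_of_N2 {v : E} {M : ℝ} (h : N2 v ≤ M) : ‖v‖ ≤ √M := by
  have hM : 0 ≤ √M := Real.sqrt_nonneg _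
  unfold N2 at h
  have key : ∀ a : ℝ, a ^ 2 ≤ M → ‖a‖ ≤ √M := fun a ha => by
    rw [Real.norm_eq_abs]; exact Real.abs_le_sqrt ha
  rw [Prod.norm_def, max_le_iff]
  constructor
  · rw [pi_norm_le_iff_of_nonneg hM]
    intro i
    apply key
    fin_cases i <;> simp only [Fin.zero_eta, Fin.mk_one, Fin.reduceFinMk] <;>
      nlinarith [sq_nonneg (v.1 0), sq_nonneg (v.1 1), sq_nonneg (v.1 2), sq_nonneg (v.2 0),
        sq_nonneg (v.2 1), sq_nonneg (v.2 2)]
  · rw [pi_norm_le_iff_of_nonneg hM]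
    intro i
    apply key
    fin_cases i <;> simp only [Fin.zero_eta, Fin.mk_one, Fin.reduceFinMk] <;>
      nlinarith [sq_nonneg (v.1 0), sq_nonneg (v.1 1), sq_nonneg (v.1 2), sq_nonneg (v.2 0),
        sq_nonneg (v.2 1), sq_nonneg (v.2 2)]

lemma isCompact_N2 {C : Set E} (hC : IsClosed C) {M : ℝ} (h : ∀ v ∈ C, N2 v ≤ M) :
    IsCompact C := by
  refine (isCompact_closedBall (0 : E) (√M)).of_isClosed_subset hC fun v hv => ?_
  rw [mem_closedBall_zero_iff]
  exact norm_le_of_N2 (h v hv)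

noncomputable def ρP (v : E) : ℝ := N2 v + (S v)⁻¹

lemma contDiffOn_ρP : ContDiffOn ℝ ∞ ρP P := by
  unfold ρP
  exact contDiff_N2.contDiffOn.add (contDiff_S.contDiffOn.inv fun v hv => (mem_P_iff.1 hv).ne')

lemma compact_ρP (M : ℝ) : IsCompact {x | x ∈ P ∧ ρP x ≤ M} := by
  have e : {x | x ∈ P ∧ ρP x ≤ M} = {x : E | N2 x * S x + 1 ≤ M * S x} := by
    ext x
    simp only [mem_ofPred_eq, ρP]
    constructor
    · rintro ⟨h1, h2⟩
      have hS := mem_P_iff.1 h1
      have := mul_le_mul_of_nonneg_right h2 hS.le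
      rw [add_mul, inv_mul_cancel₀ hS.ne'] at this
      exact this
    · intro h
      have hS : 0 < S x := by
        rcases (S_nonneg x).lt_or_eq with h0 | h0
        · exact h0
        · rw [← h0] at h; linarith
      refine ⟨mem_P_iff.2 hS, ?_⟩
      have h3 : (N2 x + (S x)⁻¹) * S x ≤ M * S x := by
        rw [add_mul, inv_mul_cancel₀ hS.ne']; exact h
      exact le_of_mul_le_mul_right h3 hS
  have hcl : IsClosed {x : E | N2 x * S x + 1 ≤ M * S x} :=
    isClosed_le ((contDiff_N2.continuous.mul contDiff_S.continuous).add continuous_const)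
      (continuous_const.mul contDiff_S.continuous)
  rw [e]
  refine isCompact_N2 (M := M) hcl fun v hv => ?_
  rw [← e] at hv
  have h1 := hv.2
  have h2 : 0 < (S v)⁻¹ := inv_pos.2 (mem_P_iff.1 hv.1)
  unfold ρP at h1
  linarith

lemma N2_rot {c d : ℝ} (h : c ^ 2 + d ^ 2 = 1) (v : E) : N2 (rot c d v) = N2 v := by
  simp only [N2, rot, Matrix.cons_val_zero, Matrix.cons_val_one, Matrix.cons_val]
  linear_combination (v.1 0 ^ 2 + v.1 1 ^ 2 + v.2 0 ^ 2 + v.2 1 ^ 2) * h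

lemma cutP_rot {c d : ℝ} (h : c ^ 2 + d ^ 2 = 1) (M : ℝ) (v : E) :
    cut P ρP M (rot c d v) = cut P ρP M v := by
  unfold cut ρP
  rw [mem_P_rot h, N2_rot h, S_rot h]

/-! ### exhaustion function of `W` -/

lemma isOpen_W : IsOpen W := by
  have h : W = P ∩ H ⁻¹' {0}ᶜ := rfl
  rw [h]
  exact contDiffOn_H.continuousOn.isOpen_inter_preimage isOpen_P isOpen_compl_singleton

noncomputable def ρW (v : E) : ℝ := ρP v + (H v ^ 2)⁻¹

lemma contDiffOn_ρW : ContDiffOn ℝ ∞ ρW W := by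
  unfold ρW
  exact (contDiffOn_ρP.mono fun v hv => hv.1).add
    (((contDiffOn_H.mono fun v hv => hv.1).pow 2).inv fun v hv => pow_ne_zero 2 hv.2)

lemma compact_ρW (M : ℝ) : IsCompact {x | x ∈ W ∧ ρW x ≤ M} := by
  have hK := compact_ρP M
  have e : {x | x ∈ W ∧ ρW x ≤ M} = {x | x ∈ P ∧ ρP x ≤ M} ∩
      (fun x => ρP x * H x ^ 2 + 1 - M * H x ^ 2) ⁻¹' Iic 0 := by
    ext x
    simp only [mem_ofPred_eq, ρW, mem_inter_iff, mem_preimage, mem_Iic]
    constructor
    · rintro ⟨⟨h1, h0⟩, h2⟩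
      have hH : 0 < H x ^ 2 := by positivity
      have h3 : 0 < (H x ^ 2)⁻¹ := inv_pos.2 hH
      refine ⟨⟨h1, by linarith⟩, ?_⟩
      have := mul_le_mul_of_nonneg_right h2 hH.le
      rw [add_mul, inv_mul_cancel₀ hH.ne'] at this
      linarith
    · rintro ⟨⟨h1, h2⟩, h3⟩
      have hH : H x ≠ 0 := by
        intro h0; rw [h0] at h3; norm_num at h3
      have hH2 : 0 < H x ^ 2 := by positivity
      refine ⟨⟨h1, hH⟩, ?_⟩
      have h3 : (ρP x + (H x ^ 2)⁻¹) * H x ^ 2 ≤ M * H x ^ 2 := by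
        rw [add_mul, inv_mul_cancel₀ hH2.ne']; linarith
      exact le_of_mul_le_mul_right h3 hH2
  rw [e]
  have hcont : ContinuousOn (fun x => ρP x * H x ^ 2 + 1 - M * H x ^ 2) {x | x ∈ P ∧ ρP x ≤ M} := by
    have hP : ContinuousOn ρP {x | x ∈ P ∧ ρP x ≤ M} :=
      contDiffOn_ρP.continuousOn.mono fun v hv => hv.1
    have hH : ContinuousOn H {x | x ∈ P ∧ ρP x ≤ M} :=
      contDiffOn_H.continuousOn.mono fun v hv => hv.1
    exact ((hP.mul (hH.pow 2)).add continuousOn_const).sub (continuousOn_const.mul (hH.pow 2))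
  exact hK.of_isClosed_subset (hcont.preimage_isClosed_of_isClosed hK.isClosed isClosed_Iic)
    inter_subset_left

/-! ### the complete vector field -/

theorem exists_Z (hE : S_EPS) : ∃ (g : E → ℝ) (Z : E → E), ContDiff ℝ ∞ g ∧ ContDiff ℝ ∞ Z ∧
    (∀ x ∈ P, 0 < g x) ∧ (∀ x ∉ P, g x = 0) ∧ (∀ x ∉ P, Z x = 0) ∧ (∀ x, Z x = g x • XH x) ∧
    LipschitzWith 2 Z ∧ (∀ x, ‖Z x‖ ≤ 2) ∧
    (∀ c d : ℝ, c ^ 2 + d ^ 2 = 1 → ∀ x, g (rot c d x) = g x) := by
  set χ : ℕ → E → ℝ := fun j => cut P ρP j with hχ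
  have hχs : ∀ j, ContDiff ℝ ∞ (χ j) := fun j => contDiff_cut isOpen_P contDiffOn_ρP compact_ρP j
  have hχc : ∀ j, HasCompactSupport (χ j) := fun j => hasCompactSupport_cut compact_ρP j
  have hχt : ∀ j, tsupport (χ j) ⊆ P := fun j => (tsupport_cut compact_ρP j).trans fun v hv => hv.1
  set F : ℕ → ℕ → E → ℝ × E := fun _ j x => χ j x • ((1 : ℝ), XH x) with hF
  have hF1 : ∀ m j, ContDiff ℝ ∞ (F m j) := fun m j =>
    contDiff_smul_of_tsupport isOpen_P (hχs j) (hχt j) (contDiffOn_const.prodMk contDiffOn_XH)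
  have hF2 : ∀ m j, HasCompactSupport (F m j) := fun m j => (hχc j).smul_right
  obtain ⟨ε, hε, hb, hsum⟩ := hE (ℝ × E) F hF1 hF2
  obtain ⟨h1, h2, h3⟩ := hsum 0 (fun _ => 1) (fun _ => by simp)
  simp only [one_mul] at h1 h2 h3
  set Φ : E → ℝ × E := fun x => ∑' j, ε j • F 0 j x with hΦ
  have hgs : ∀ x, Summable fun j => ε j * χ j x := by
    intro x
    have := (h1 x).map (ContinuousLinearMap.fst ℝ ℝ E) (ContinuousLinearMap.fst ℝ ℝ E).continuous
    simpa [hF, Function.comp_def] using this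
  have hg : ∀ x, (Φ x).1 = ∑' j, ε j * χ j x := by
    intro x
    have := (ContinuousLinearMap.fst ℝ ℝ E).map_tsum (h1 x)
    refine this.trans (tsum_congr fun j => ?_)
    simp [hF]
  have hZ : ∀ x, (Φ x).2 = (Φ x).1 • XH x := by
    intro x
    have := (ContinuousLinearMap.snd ℝ ℝ E).map_tsum (h1 x)
    rw [hg x, ← (hgs x).tsum_smul_const]
    refine this.trans (tsum_congr fun j => ?_)
    simp [hF, mul_smul]
  have hnorm : ∀ x, ‖Φ x‖ ≤ 2 := by
    intro x
    have hg2 : HasSum (fun n : ℕ => (1 / 2 : ℝ) ^ n) 2 := hasSum_geometric_two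
    refine tsum_of_norm_bounded hg2 fun j => ?_
    rw [norm_smul, Real.norm_eq_abs, abs_of_pos (hε j)]
    exact (hb 0 j (Nat.zero_le _) x).1
  have hfn : ∀ x, ‖fderiv ℝ Φ x‖ ≤ 2 := by
    intro x
    have hg2 : HasSum (fun n : ℕ => (1 / 2 : ℝ) ^ n) 2 := hasSum_geometric_two
    rw [(h3 x).2]
    refine tsum_of_norm_bounded hg2 fun j => ?_
    rw [norm_smul, Real.norm_eq_abs, abs_of_pos (hε j)]
    exact (hb 0 j (Nat.zero_le _) x).2
  have hΦd : Differentiable ℝ Φ := h2.differentiable (by simp)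
  have hΦL : LipschitzWith 2 Φ := by
    apply lipschitzWith_of_nnnorm_fderiv_le hΦd
    intro x
    rw [← NNReal.coe_le_coe]
    simpa using hfn x
  refine ⟨fun x => (Φ x).1, fun x => (Φ x).2, h2.fst, h2.snd, ?_, ?_, ?_, hZ, ?_, ?_, ?_⟩
  · intro x hx
    simp only [hg]
    obtain ⟨j, hj⟩ := exists_nat_gt (ρP x + 1)
    refine (hgs x).tsum_pos (fun i => mul_nonneg (hε i).le (cut_nonneg _ _)) j ?_
    have : χ j x = 1 := cut_of_le hx (by linarith)
    rw [this, mul_one]; exact hε j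
  · intro x hx
    simp only [hg]
    have : ∀ j, χ j x = 0 := fun j => cut_zero_of_notMem fun h => hx h.1
    simp [this]
  · intro x hx
    simp only
    rw [hZ, hg]
    have : ∀ j, χ j x = 0 := fun j => cut_zero_of_notMem fun h => hx h.1
    simp [this]
  · have := LipschitzWith.prod_snd.comp hΦL
    simpa [Function.comp_def] using this
  · intro x
    exact (norm_snd_le _).trans (hnorm x)
  · intro c d h x
    simp only [hg]
    exact tsum_congr fun j => by rw [hχ]; simp only; rw [cutP_rot h]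

end Pool.Agent.W820.KH
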